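import Pool.Agent.W92.DP.Defs
import Pool.Agent.H12R2.Sep.DualBox

/-! Double points (helper92), task DP-ARMS (helper571): the arms of the plus event. -/

set_option autoImplicit false

namespace Pool.Agent.W571.DParms

open H974 H12S Finset H389NS
open Pool.Agent.W92.DP

theorem XV_sub {b w N : ℕ} (hbN : b ≤ N) (hwN : w ≤ N) : XV b w N ⊆ boxE N := by
  have h' : (w:ℤ) ≤ N := by exact_mod_cast hwN
  unfold XV
  apply Finset.union_subset (DU_boxE_mono hbN)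
  unfold boxE
  rintro ⟨x, y, _ | _⟩ he
  · rw [mem_RE_false] at he ⊢
    omega
  · rw [mem_RE_true] at he ⊢
    omega

theorem reach_insert {A : Set Edg} {e : Edg} {x y : Vtx} : Reach (insert e A) x y ↔
    Reach A x y ∨ (Reach A x (src e) ∧ Reach A (tgt e) y) ∨
      (Reach A x (tgt e) ∧ Reach A (src e) y) := GR_insert (s := src) (t := tgt)

theorem dreach_insert {A : Set Edg} {e : Edg} {x y : Vtx} : DReach (insert e A) x y ↔
    DReach A x y ∨ (DReach A x (dsrc e) ∧ DReach A (dtgt e) y) ∨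
      (DReach A x (dtgt e) ∧ DReach A (dsrc e) y) := GR_insert (s := dsrc) (t := dtgt)

theorem arms : St_arms := by
  classical
  intro L m hL hm β F hP
  obtain ⟨b, hb⟩ : ∃ b : ℕ, b = 4 * L * m := ⟨_, rfl⟩
  obtain ⟨N, hN⟩ : ∃ N : ℕ, N = 16 * L * m := ⟨_, rfl⟩
  rw [← hb, ← hN] at hP ⊢
  have hLm : 128 ≤ L * m := by nlinarith
  have hbN : b ≤ N := by rw [hb, hN]; nlinarith
  have hmN : m ≤ N := by rw [hN]; nlinarith
  have hN1 : 1 ≤ N := by rw [hN]; nlinarith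
  have hb1 : 1 ≤ b := by rw [hb]; nlinarith
  obtain ⟨e, he⟩ : ∃ e : Edg, e = e0 β := ⟨_, rfl⟩
  rw [← he] at hP ⊢
  have heb : e ∈ boxE b := by
    rw [he]
    unfold e0 boxE
    have : (1 : ℤ) ≤ b := by exact_mod_cast hb1
    cases β
    · rw [mem_RE_false]; omega
    · rw [mem_RE_true]; omega
  have heN : e ∈ boxE N := DU_boxE_mono hbN heb
  have hXV := XV_sub hbN hmN
  have hXH := DU_XH_sub hbN hmN
  obtain ⟨P1, P2⟩ := hP
  set A : Set Edg := (F ∩ ↑(XV b m N)) \ {e} with hA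
  set G : Set Edg := ((F ∩ ↑(XH b m N)) ∪ ↑(boxE N \ XH b m N)) \ {e} with hG
  set B : Set Edg := (F ∩ ↑(boxE N)) \ {e} with hB
  set H : Set Edg := (↑(XH b m N) \ F) \ {e} with hH
  have hAB : A ⊆ B := by
    rintro g ⟨⟨h1, h2⟩, h3⟩
    exact ⟨⟨h1, hXV h2⟩, h3⟩
  have hBG : B ⊆ G := by
    rintro g ⟨⟨h1, h2⟩, h3⟩
    refine ⟨?_, h3⟩
    by_cases h4 : g ∈ XH b m N
    · exact Or.inl ⟨h1, h4⟩
    · right
      rw [Finset.mem_coe, Finset.mem_sdiff]
      exact ⟨h2, h4⟩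
  have hinsA : insert e (F ∩ ↑(XV b m N)) = insert e A := by
    rw [hA]
    ext g
    simp only [Set.mem_insert_iff, Set.mem_sdiff, Set.mem_singleton_iff]
    tauto
  -- open arms
  have hopen : ∃ a a' : Vtx, ((a = src e ∧ a' = tgt e) ∨ (a = tgt e ∧ a' = src e)) ∧
      (∃ w : Vtx, w.2 = -(N : ℤ) ∧ Reach A a w) ∧ (∃ w : Vtx, w.2 = (N : ℤ) ∧ Reach A a' w) := by
    obtain ⟨x, hx, y, hy, hr⟩ := P1
    have hx' : x.2 = -(N : ℤ) := hx
    have hy' : y.2 = (N : ℤ) := hy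
    rw [hinsA, reach_insert] at hr
    rcases hr with h | ⟨h1, h2⟩ | ⟨h1, h2⟩
    · exact absurd ⟨x, hx, y, hy, h.mono (hAB.trans hBG)⟩ P2
    · exact ⟨src e, tgt e, Or.inl ⟨rfl, rfl⟩, ⟨x, hx', h1.symm⟩, ⟨y, hy', h2⟩⟩
    · exact ⟨tgt e, src e, Or.inr ⟨rfl, rfl⟩, ⟨x, hx', h1.symm⟩, ⟨y, hy', h2⟩⟩
  refine ⟨hopen, ?_, ?_⟩
  · -- dual arms
    set G' : Finset Edg := (boxE N).filter (fun g => g ∈ G) with hG'
    have hGsub : G ⊆ ↑(boxE N) := by
      rintro g ⟨h1 | h1, -⟩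
      · exact hXH h1.2
      · exact (Finset.mem_sdiff.1 h1).1
    have hcoe : (↑G' : Set Edg) = G := by
      ext g
      rw [hG', Finset.mem_coe, Finset.mem_filter]
      exact ⟨fun h => h.2, fun h => ⟨hGsub h, h⟩⟩
    have hG'N : G' ⊆ boxE N := Finset.filter_subset _ _
    have h1 : ¬ Cn (botV N) (topV N) (↑G' : Set Edg) := by rw [hcoe]; exact P2
    rw [cn_dual N hN1 hG'N, not_not] at h1
    obtain ⟨x, hx, y, hy, hr⟩ := h1
    have hx' : x.1 = -(N : ℤ) - 1 := hx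
    have hy' : y.1 = (N : ℤ) := hy
    have hset : (↑(boxE N \ G') : Set Edg) = insert e H := by
      ext g
      rw [Finset.mem_coe, Finset.mem_sdiff, hG', Finset.mem_filter, Set.mem_insert_iff]
      simp only [hG, hH, Set.mem_sdiff, Set.mem_union, Set.mem_inter_iff, Finset.mem_coe,
        Finset.mem_sdiff, Set.mem_singleton_iff]
      constructor
      · rintro ⟨h2, h3⟩
        by_cases h4 : g = e
        · exact Or.inl h4
        · right
          by_cases h5 : g ∈ XH b m N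
          · refine ⟨⟨h5, fun h6 => h3 ⟨h2, Or.inl ⟨h6, h5⟩, h4⟩⟩, h4⟩
          · exact absurd ⟨h2, Or.inr ⟨h2, h5⟩, h4⟩ h3
      · rintro (h2 | ⟨⟨h2, h3⟩, h4⟩)
        · rw [h2]
          exact ⟨heN, fun h3 => h3.2.2 rfl⟩
        · refine ⟨hXH h2, ?_⟩
          rintro ⟨-, h5 | h5, -⟩
          · exact h3 h5.1
          · exact h5.2 h2
    rw [coe_dmp, reach_dl, hset, dreach_insert] at hr
    rcases hr with h | ⟨h2, h3⟩ | ⟨h2, h3⟩
    · exfalso
      set I' : Finset Edg := (boxE N).filter (fun g => g ∈ insert e (F ∩ ↑(XV b m N))) with hI'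
      have hcoe2 : (↑I' : Set Edg) = insert e (F ∩ ↑(XV b m N)) := by
        ext g
        rw [hI', Finset.mem_coe, Finset.mem_filter]
        refine ⟨fun h => h.2, fun h => ⟨?_, h⟩⟩
        rcases h with h | h
        · rw [h]; exact heN
        · exact hXV h.2
      have hI'N : I' ⊆ boxE N := Finset.filter_subset _ _
      have h4 : Cn (botV N) (topV N) (↑I' : Set Edg) := by rw [hcoe2]; exact P1
      rw [cn_dual N hN1 hI'N] at h4
      apply h4
      refine ⟨x, hx, y, hy, ?_⟩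
      rw [coe_dmp, reach_dl]
      refine h.mono ?_
      rintro g ⟨⟨h5, h6⟩, h7⟩
      rw [Finset.mem_coe, Finset.mem_sdiff]
      refine ⟨hXH h5, fun h8 => ?_⟩
      have h9 : g ∈ (↑I' : Set Edg) := h8
      rw [hcoe2] at h9
      rcases h9 with h9 | h9
      · exact h7 h9
      · exact h6 h9.1
    · exact ⟨dsrc e, dtgt e, Or.inl ⟨rfl, rfl⟩, ⟨x, hx', h2.symm⟩, ⟨y, hy', h3⟩⟩
    · exact ⟨dtgt e, dsrc e, Or.inr ⟨rfl, rfl⟩, ⟨x, hx', h2.symm⟩, ⟨y, hy', h3⟩⟩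
  · intro hst
    obtain ⟨a, a', haa, ⟨x, hx, hx2⟩, ⟨y, hy, hy2⟩⟩ := hopen
    apply P2
    have hst' : Reach G a a' := by
      rcases haa with ⟨h1, h2⟩ | ⟨h1, h2⟩
      · rw [h1, h2]; exact hst.mono hBG
      · rw [h1, h2]; exact (hst.mono hBG).symm
    exact ⟨x, hx, y, hy, ((hx2.mono (hAB.trans hBG)).symm.trans hst').trans
      (hy2.mono (hAB.trans hBG))⟩

end Pool.Agent.W571.DParms
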