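import Pool.Agent.W92.DP.Defs

/-! Double points (helper92), task DP-AD (helper571): the dual annulus bound. -/

set_option autoImplicit false

namespace Pool.Agent.W571.DPad

open H974 H12S Finset H389NS
open Pool.Agent.W92.DP

theorem A4a_congr {c : ℤ × ℤ} {d k : ℕ} {F G : Set Edg}
    (h : F ∩ ↑(blk c k) = G ∩ ↑(blk c k)) : A4a c d k F ↔ A4a c d k G := by
  have e : ∀ H : Set Edg, H ∩ ↑(blk c k \ blk c d) = (H ∩ ↑(blk c k)) ∩ (↑(blk c d) : Set Edg)ᶜ := by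
    intro H
    ext x
    simp only [Set.mem_inter_iff, Finset.coe_sdiff, Set.mem_sdiff, Set.mem_compl_iff]
    tauto
  unfold A4a
  rw [e F, e G, h]

theorem dls_mem {c : ℤ × ℤ} {k : ℕ} {e : Edg} (he : e ∈ blk c k) : dl.symm e ∈ blk c (k + 1) := by
  obtain ⟨x, y, _ | _⟩ := e
  · unfold blk at he ⊢
    rw [dls_f]
    simp only [mem_RE_false, mem_RE_true] at he ⊢
    push_cast
    omega
  · unfold blk at he ⊢
    rw [dls_t]
    simp only [mem_RE_false, mem_RE_true] at he ⊢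
    push_cast
    omega

theorem ad : St_Aa → St_Ad := by
  rintro ⟨C, hC, h⟩
  refine ⟨C, hC, ?_⟩
  intro c d k hd hdk S hS
  have hsub : blk c k ⊆ dmp S := by
    intro e he
    rw [mem_dmp]
    exact hS (dls_mem he)
  have h1 := h c d k hd hdk (dmp S) hsub
  refine le_of_eq_of_le ?_ h1
  show Pr (fun _ => (1 / 2 : ℝ)) S _ = Pr (fun _ => (1 / 2 : ℝ)) (dmp S) _
  rw [pr_dmp]
  have h2 : (fun _ : Edg => (1 / 2 : ℝ)) = fun e => 1 - (fun _ : Edg => (1 / 2 : ℝ)) e := by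
    funext e
    norm_num
  conv_rhs => rw [h2]
  rw [Pr_compl (fun _ : Edg => (1 / 2 : ℝ)) S (fun F => A4a c d k ↑(dmp F))]
  apply Pr_congr
  intro F hF
  unfold A4d
  apply A4a_congr
  ext e
  simp only [Set.mem_inter_iff, coe_dmp, Set.mem_image, Set.mem_compl_iff, Finset.mem_coe,
    Finset.mem_sdiff]
  constructor
  · rintro ⟨⟨g, hg, rfl⟩, he⟩
    have := dls_mem he
    rw [Equiv.symm_apply_apply] at this
    exact ⟨⟨g, ⟨hS this, hg⟩, rfl⟩, he⟩
  · rintro ⟨⟨g, ⟨hg1, hg⟩, rfl⟩, he⟩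
    exact ⟨⟨g, hg, rfl⟩, he⟩

end Pool.Agent.W571.DPad
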