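import Pool.Agent.W757.RD.StN
import Pool.Agent.H790R3.RB.TINJL
import Pool.Agent.H790R3.RB.TSP
import Pool.Agent.H790R3.RB.TWR
import Pool.Agent.H790R3.RB.TMUL

/-! RE-HEX: the map `z ↦ z ^ d` is hyperbolic. -/

set_option autoImplicit false

open Topology Filter Metric Set MeasureTheory
open scoped OnePoint

namespace Pool.Agent.W571.REHEX

open Pool.Agent.H790R3.RB
open Pool.Agent.W757.RD (StHEX)

/-- the coefficients of `z ↦ z ^ d` -/
noncomputable def px (d : ℕ) : CV d := fun q =>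
  if q.1 = 0 then (if (q.2 : ℕ) = d then 1 else 0) else (if (q.2 : ℕ) = 0 then 1 else 0)

lemma hF_px (d : ℕ) (p : ℂ × ℂ) : hF (px d) p = (p.1 ^ d, p.2 ^ d) := by
  apply Prod.ext
  · show ∑ j : Fin (d + 1), px d (0, j) * (p.1 ^ (j : ℕ) * p.2 ^ (d - (j : ℕ))) = _
    rw [Finset.sum_eq_single (Fin.last d)]
    · simp [px]
    · intro j _ hj
      have : (j : ℕ) ≠ d := fun h => hj (Fin.ext h)
      simp [px, this]
    · intro h; exact absurd (Finset.mem_univ _) h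
  · show ∑ j : Fin (d + 1), px d (1, j) * (p.1 ^ (j : ℕ) * p.2 ^ (d - (j : ℕ))) = _
    rw [Finset.sum_eq_single (0 : Fin (d + 1))]
    · simp [px]
    · intro j _ hj
      have : (j : ℕ) ≠ 0 := fun h => hj (Fin.ext h)
      simp [px, this]
    · intro h; exact absurd (Finset.mem_univ _) h

lemma hF_iter (d N : ℕ) (p : ℂ × ℂ) : (hF (px d))^[N] p = (p.1 ^ d ^ N, p.2 ^ d ^ N) := by
  induction N with
  | zero => simp
  | succ N ih =>
    rw [Function.iterate_succ_apply', ih, hF_px]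
    apply Prod.ext
    · show (p.1 ^ d ^ N) ^ d = p.1 ^ d ^ (N + 1)
      rw [← pow_mul, pow_succ]
    · show (p.2 ^ d ^ N) ^ d = p.2 ^ d ^ (N + 1)
      rw [← pow_mul, pow_succ]

lemma nd_px (d : ℕ) (hd : 1 ≤ d) : ND (px d) := by
  intro p hp
  rw [hF_px] at hp
  have h1 : p.1 ^ d = 0 := congrArg Prod.fst hp
  have h2 : p.2 ^ d = 0 := congrArg Prod.snd hp
  exact Prod.ext (pow_eq_zero_iff (by omega) |>.1 h1) (pow_eq_zero_iff (by omega) |>.1 h2)

lemma wr_px (d : ℕ) (hd : 2 ≤ d) (p : ℂ × ℂ) :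
    wr (px d) p = (d : ℂ) * p.1 ^ (d - 1) * (d * p.2 ^ (d - 1)) := by
  have e1 : ∑ j : Fin (d + 1), px d (0, j) * (((j : ℕ) : ℂ) * p.1 ^ ((j : ℕ) - 1) *
      p.2 ^ (d - (j : ℕ))) = d * p.1 ^ (d - 1) := by
    rw [Finset.sum_eq_single (Fin.last d)]
    · simp [px]
    · intro j _ hj
      have : (j : ℕ) ≠ d := fun h => hj (Fin.ext h)
      simp [px, this]
    · intro h; exact absurd (Finset.mem_univ _) h
  have e2 : ∑ j : Fin (d + 1), px d (1, j) * (((d - (j : ℕ) : ℕ) : ℂ) * p.1 ^ (j : ℕ) *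
      p.2 ^ (d - (j : ℕ) - 1)) = d * p.2 ^ (d - 1) := by
    rw [Finset.sum_eq_single (0 : Fin (d + 1))]
    · simp [px]
    · intro j _ hj
      have : (j : ℕ) ≠ 0 := fun h => hj (Fin.ext h)
      simp [px, this]
    · intro h; exact absurd (Finset.mem_univ _) h
  have e3 : ∑ j : Fin (d + 1), px d (0, j) * (((d - (j : ℕ) : ℕ) : ℂ) * p.1 ^ (j : ℕ) *
      p.2 ^ (d - (j : ℕ) - 1)) = 0 := by
    refine Finset.sum_eq_zero fun j _ => ?_
    by_cases h : (j : ℕ) = d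
    · simp [h]
    · simp [px, h]
  rw [wr, e1, e2, e3, zero_mul, sub_zero]

lemma pow_tendsto (d : ℕ) (hd : 2 ≤ d) : Tendsto (fun k : ℕ => d ^ k) atTop atTop :=
  tendsto_pow_atTop_atTop_of_one_lt (by omega)

lemma sp_iter_coe (d k : ℕ) (hd : 2 ≤ d) (w : ℂ) :
    (sp (px d))^[k] (w : OnePoint ℂ) = ((w ^ d ^ k : ℂ) : OnePoint ℂ) := by
  have h := (SP d (px d) (by omega) (nd_px d (by omega))).2.1 (w, 1) (by simp) k
  have h1 : pr ((w, 1) : ℂ × ℂ) = (w : OnePoint ℂ) := by simp [pr]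
  rw [h1] at h
  rw [h, hF_iter]
  simp [pr]

lemma sp_iter_infty (d k : ℕ) (hd : 2 ≤ d) :
    (sp (px d))^[k] (∞ : OnePoint ℂ) = ∞ := by
  have h := (SP d (px d) (by omega) (nd_px d (by omega))).2.1 (1, 0) (by simp) k
  have h1 : pr ((1, 0) : ℂ × ℂ) = (∞ : OnePoint ℂ) := by simp [pr]
  rw [h1] at h
  rw [h, hF_iter]
  have hk : d ^ k ≠ 0 := (pow_pos (by omega) k).ne'
  have h2 : ((0 : ℂ)) ^ d ^ k = 0 := zero_pow hk
  rw [pr, if_pos h2]

/-- points of modulus less than one tend to `0` -/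
lemma tend_zero (d : ℕ) (hd : 2 ≤ d) (w : ℂ) (hw : ‖w‖ < 1) :
    Tendsto (fun k : ℕ => (sp (px d))^[1 * k] (w : OnePoint ℂ)) atTop
      (𝓝 ((0 : ℂ) : OnePoint ℂ)) := by
  simp only [one_mul, sp_iter_coe d _ hd]
  refine (OnePoint.continuous_coe.tendsto 0).comp ?_
  exact (tendsto_pow_atTop_nhds_zero_of_norm_lt_one hw).comp (pow_tendsto d hd)

/-- points of modulus larger than one tend to infinity -/
lemma tend_infty (d : ℕ) (hd : 2 ≤ d) (w : ℂ) (hw : 1 < ‖w‖) :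
    Tendsto (fun k : ℕ => (sp (px d))^[1 * k] (w : OnePoint ℂ)) atTop (𝓝 ∞) := by
  simp only [one_mul, sp_iter_coe d _ hd]
  have h1 : Tendsto (fun k : ℕ => w ^ d ^ k) atTop (cocompact ℂ) := by
    rw [← Metric.cobounded_eq_cocompact, ← comap_norm_atTop, tendsto_comap_iff]
    have h2 : (norm ∘ fun k : ℕ => w ^ d ^ k) = fun k : ℕ => ‖w‖ ^ (d ^ k) := by
      funext k
      simp
    rw [h2]
    exact (tendsto_pow_atTop_atTop_of_one_lt hw).comp (pow_tendsto d hd)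
  have h3 : Tendsto ((↑) : ℂ → OnePoint ℂ) (cocompact ℂ) (𝓝 ∞) := by
    have := OnePoint.tendsto_coe_infty (X := ℂ)
    rwa [coclosedCompact_eq_cocompact] at this
  exact h3.comp h1

theorem task : StHEX := by
  intro d hd
  have hnd := nd_px d (by omega)
  refine ⟨px d, hnd, fun c hc => ?_⟩
  have hinj : ∀ p : ℂ × ℂ, p ≠ 0 → wr (px d) p ≠ 0 → ∃ U ∈ 𝓝 (pr p), InjOn (sp (px d)) U :=
    fun p h1 h2 => INJL SP WR d (px d) p hd hnd h1 h2
  have hd0 : (d : ℂ) ≠ 0 := by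
    have : d ≠ 0 := by omega
    exact_mod_cast this
  induction c using OnePoint.rec with
  | infty =>
    refine ⟨∞, 1, one_pos, by simpa using sp_iter_infty d 1 hd, ?_, ?_⟩
    · refine ⟨((↑) '' (closedBall (0 : ℂ) 1)ᶜ ∪ {∞} : Set (OnePoint ℂ)), ?_, ?_⟩
      · exact OnePoint.hasBasis_nhds_infty.mem_of_mem ⟨isClosed_closedBall, isCompact_closedBall _ _⟩
      · rintro y (⟨w, hw, rfl⟩ | hy)
        · refine tend_infty d hd w ?_
          have : ¬ (‖w‖ ≤ 1) := by simpa using hw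
          exact not_le.mp this
        · rw [mem_singleton_iff] at hy
          subst hy
          simp only [sp_iter_infty d _ hd]
          exact tendsto_const_nhds
    · simp only [sp_iter_infty d _ hd]
      exact tendsto_const_nhds
  | coe c =>
    have hc0 : c = 0 := by
      by_contra h0
      apply hc
      have h1 : pr ((c, 1) : ℂ × ℂ) = (c : OnePoint ℂ) := by simp [pr]
      rw [← h1]
      refine hinj (c, 1) (by simp) ?_
      rw [wr_px d hd]
      simp only [one_pow, mul_one]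
      exact mul_ne_zero (mul_ne_zero hd0 (pow_ne_zero _ h0)) hd0
    subst hc0
    refine ⟨((0 : ℂ) : OnePoint ℂ), 1, one_pos, ?_, ?_, tend_zero d hd 0 (by simp)⟩
    · rw [sp_iter_coe d 1 hd, zero_pow (by rw [pow_one]; omega)]
    · refine ⟨(↑) '' ball (0 : ℂ) 1, ?_, ?_⟩
      · exact (OnePoint.isOpenEmbedding_coe.isOpenMap _ isOpen_ball).mem_nhds
          ⟨0, mem_ball_self one_pos, rfl⟩
      · rintro y ⟨w, hw, rfl⟩
        exact tend_zero d hd w (by simpa using hw)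

end Pool.Agent.W571.REHEX
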