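import Pool.Agent.W757.RD.StN
import Pool.Agent.H790R3.RB.TSP
import Pool.Agent.H790R3.RB.TPQ
import Pool.Agent.H790R3.RB.TMUL

/-! RE-NAF: some fixed point is not attracting. -/

set_option autoImplicit false

open Topology Filter Metric Set MeasureTheory
open scoped OnePoint

namespace Pool.Agent.W571.RENAF

open Pool.Agent.H790R3.RB Polynomial
open Pool.Agent.W757.RD (StNAF)

/-- a sink at a fixed point is a sink of period one -/
lemma sink_one {f : OnePoint ℂ → OnePoint ℂ} (hf : Continuous f) {p : ℕ} {q : OnePoint ℂ}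
    (hq : f q = q) (h : Sink f p q) : Sink f 1 q := by
  obtain ⟨hp, -, U, hU, hV⟩ := h
  refine ⟨one_pos, by simpa using hq, U, hU, fun V hVn => ?_⟩
  have hfix : ∀ r : ℕ, f^[r] q = q := fun r => Function.iterate_fixed hq r
  have hV' : (⋂ r ∈ Finset.range p, f^[r] ⁻¹' V) ∈ 𝓝 q := by
    rw [Filter.biInter_finset_mem]
    intro r _
    have hc : Tendsto (f^[r]) (𝓝 q) (𝓝 q) := by
      have := (hf.iterate r).tendsto q
      rwa [hfix r] at this
    exact hc hVn
  obtain ⟨k₀, hk₀⟩ := Filter.eventually_atTop.1 (hV _ hV')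
  refine Filter.eventually_atTop.2 ⟨p * k₀, fun k hk w hw => ?_⟩
  have h1 : k₀ ≤ k / p := (Nat.le_div_iff_mul_le hp).2 (by rwa [mul_comm])
  have h2 := hk₀ (k / p) h1 w hw
  simp only [mem_iInter, Finset.mem_range, mem_preimage] at h2
  have h3 := h2 (k % p) (Nat.mod_lt k hp)
  rw [← Function.iterate_add_apply, Nat.mod_add_div] at h3
  rwa [one_mul]

/-- the real part of `1 / (1 - μ)` -/
lemma half_lt_re {μ : ℂ} (h : ‖μ‖ < 1) : 1 / 2 < (1 / (1 - μ)).re := by
  have h0 : Complex.normSq μ < 1 := by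
    rw [Complex.normSq_eq_norm_sq]
    exact pow_lt_one₀ (norm_nonneg _) h two_ne_zero
  have h1 : 1 - μ ≠ 0 := by
    intro h1
    have : μ = 1 := (sub_eq_zero.1 h1).symm
    rw [this, norm_one] at h
    exact lt_irrefl _ h
  have h2 : 0 < Complex.normSq (1 - μ) := Complex.normSq_pos.2 h1
  have h3 : (1 / (1 - μ)).re = (1 - μ).re / Complex.normSq (1 - μ) := by
    rw [one_div, Complex.inv_re]
  rw [h3, div_lt_div_iff₀ two_pos h2]
  rw [Complex.normSq_apply] at h0 ⊢
  simp only [Complex.sub_re, Complex.sub_im, Complex.one_re, Complex.one_im]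
  nlinarith

/-- the fixed point formula -/
lemma sum_formula (G Q : ℂ[X]) (hG : G ≠ 0) (hQ : Q.degree < G.natDegree)
    (hsep : ∀ z, G.eval z = 0 → (derivative G).eval z ≠ 0) :
    ∃ s : Finset ℂ, s.card = G.natDegree ∧ (∀ z ∈ s, G.eval z = 0) ∧
      ∑ z ∈ s, Q.eval z / (derivative G).eval z = Q.coeff (G.natDegree - 1) / G.leadingCoeff := by
  classical
  have hs : G.Splits := IsAlgClosed.splits G
  have hnd : G.roots.Nodup := by
    rw [Multiset.nodup_iff_count_le_one]
    intro z
    rw [count_roots]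
    by_contra hcon
    push Not at hcon
    have hroot : G.IsRoot z := by
      by_contra h
      rw [rootMultiplicity_eq_zero h] at hcon
      omega
    have h2 : 1 < G.rootMultiplicity z := hcon
    rw [one_lt_rootMultiplicity_iff_isRoot hG] at h2
    exact hsep z hroot h2.2
  have hcard : G.roots.toFinset.card = G.natDegree := by
    rw [Multiset.toFinset_card_of_nodup hnd]
    exact hs.natDegree_eq_card_roots.symm
  have hprod : G = C G.leadingCoeff * Lagrange.nodal G.roots.toFinset id := by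
    conv_lhs => rw [hs.eq_prod_roots]
    rw [Lagrange.nodal_eq]
    congr 1
    rw [Finset.prod, Multiset.toFinset_val, Multiset.dedup_eq_self.2 hnd]
    rfl
  have hlead : G.leadingCoeff ≠ 0 := leadingCoeff_ne_zero.2 hG
  refine ⟨G.roots.toFinset, hcard, fun z hz => ?_, ?_⟩
  · exact (mem_roots'.1 (Multiset.mem_toFinset.1 hz)).2
  · have h1 := Lagrange.coeff_eq_sum (s := G.roots.toFinset) (v := (id : ℂ → ℂ))
      (fun _ _ _ _ h => h) (P := Q) (by rw [hcard]; exact hQ)
    rw [hcard] at h1
    rw [h1, Finset.sum_div]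
    refine Finset.sum_congr rfl fun z hz => ?_
    have h2 : (derivative G).eval z = G.leadingCoeff *
        ∏ j ∈ G.roots.toFinset.erase z, (id z - id j) := by
      conv_lhs => rw [hprod]
      rw [derivative_C_mul, eval_C_mul]
      congr 1
      have h3 := Lagrange.eval_nodal_derivative_eval_node_eq (v := (id : ℂ → ℂ)) hz
      rw [Lagrange.eval_nodal] at h3
      exact h3
    rw [h2, div_mul_eq_div_div_swap]
    rfl

section main

variable {d : ℕ} {x : CV d}

lemma eval_pol (x : CV d) (i : Fin 2) (z : ℂ) :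
    (pol x i).eval z = ∑ j : Fin (d + 1), x (i, j) * z ^ (j : ℕ) := by
  rw [pol, eval_finsetSum]
  simp [eval_monomial]

lemma hF_one (x : CV d) (z : ℂ) : hF x (z, 1) = ((pol x 0).eval z, (pol x 1).eval z) := by
  rw [eval_pol, eval_pol]
  simp [hF]

/-- the multiplier at a finite fixed point -/
lemma mult_finite (hd : 2 ≤ d) (hx : ND x) {ζ : ℂ} {p : ℕ}
    (hfix : (pol x 0).eval ζ = ζ * (pol x 1).eval ζ) (hQ : (pol x 1).eval ζ ≠ 0)
    (hsink : Sink (sp x) p (ζ : OnePoint ℂ)) :
    ‖((derivative (pol x 0)).eval ζ - ζ * (derivative (pol x 1)).eval ζ) / (pol x 1).eval ζ‖ < 1 := by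
  have hsp := SP d x (by omega) hx
  have hfx : sp x (ζ : OnePoint ℂ) = ζ := by
    have h := (PQ SP d (by omega)).1 x hx
    rw [h.2.2.2.2 ζ hQ, hfix, mul_div_cancel_right₀ _ hQ]
  have h1 := sink_one hsp.1 hfx hsink
  have hpr : pr (ch (s := 1) (fun _ _ => ζ) (some 0) () 0) = (ζ : OnePoint ℂ) := by
    simp [pr, ch]
  have h2 := MUL SP d x 1 1 (fun _ _ => ζ) (some 0) hd hx (by rw [hpr]; exact h1)
  have h3 : (fun z : ℂ => loc (s := 1) (fun _ _ => ζ) (some 0) ()
      ((hF x)^[1] (ch (s := 1) (fun _ _ => ζ) (some 0) () z))) =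
      fun z => (pol x 0).eval (ζ + z) / (pol x 1).eval (ζ + z) - ζ := by
    funext z
    rw [Function.iterate_one]
    show (hF x (ζ + z, 1)).1 / (hF x (ζ + z, 1)).2 - ζ = _
    rw [hF_one]
  have h4 : HasDerivAt (fun z : ℂ => (pol x 0).eval (ζ + z) / (pol x 1).eval (ζ + z) - ζ)
      (((derivative (pol x 0)).eval ζ - ζ * (derivative (pol x 1)).eval ζ) / (pol x 1).eval ζ) 0 := by
    have hP : HasDerivAt (fun z : ℂ => (pol x 0).eval (ζ + z)) ((derivative (pol x 0)).eval ζ) 0 := by
      have := HasDerivAt.comp_const_add ζ 0 ((pol x 0).hasDerivAt (ζ + 0))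
      simpa using this
    have hQd : HasDerivAt (fun z : ℂ => (pol x 1).eval (ζ + z)) ((derivative (pol x 1)).eval ζ) 0 := by
      have := HasDerivAt.comp_const_add ζ 0 ((pol x 1).hasDerivAt (ζ + 0))
      simpa using this
    have := (hP.div hQd (by simpa using hQ)).sub_const ζ
    refine this.congr_deriv ?_
    simp only [add_zero]
    rw [hfix]
    field_simp
  rw [h3, h4.deriv] at h2
  exact h2

/-- the multiplier at infinity -/
lemma mult_infty (hd : 2 ≤ d) (hx : ND x) {p : ℕ} (hfix : x (1, Fin.last d) = 0)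
    (hsink : Sink (sp x) p ∞) :
    x (0, Fin.last d) ≠ 0 ∧ ‖(pol x 1).coeff (d - 1) / (pol x 0).coeff d‖ < 1 := by
  have hsp := SP d x (by omega) hx
  have hF10 : hF x (1, 0) = (x (0, Fin.last d), x (1, Fin.last d)) := by
    have h : ∀ i : Fin 2, ∑ j : Fin (d + 1), x (i, j) * ((1 : ℂ) ^ (j : ℕ) * 0 ^ (d - (j : ℕ))) =
        x (i, Fin.last d) := by
      intro i
      rw [Finset.sum_eq_single (Fin.last d)]
      · simp
      · intro j _ hj
        have : (j : ℕ) ≠ d := fun h => hj (Fin.ext h)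
        have h2 := j.2
        rw [zero_pow (by omega)]
        ring
      · intro h; exact absurd (Finset.mem_univ _) h
    exact Prod.ext (h 0) (h 1)
  have h0 : x (0, Fin.last d) ≠ 0 := by
    intro h0
    have := hx (1, 0) (by rw [hF10, h0, hfix]; rfl)
    simpa using congrArg Prod.fst this
  refine ⟨h0, ?_⟩
  have hfx : sp x ∞ = ∞ := by
    show pr (hF x (1, 0)) = ∞
    rw [hF10, hfix]
    simp [pr]
  have h1 := sink_one hsp.1 hfx hsink
  have hpr : pr (ch (s := 0) (fun _ _ => 0) none () 0) = (∞ : OnePoint ℂ) := by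
    simp [pr, ch]
  have h2 := MUL SP d x 1 0 (fun _ _ => 0) none hd hx (by rw [hpr]; exact h1)
  have hPQ := (PQ SP d (by omega)).1 x hx
  have hcP : (pol x 0).coeff d = x (0, Fin.last d) := by
    have := hPQ.2.2.1 0 (Fin.last d)
    simpa using this
  have hd1 : d - 1 < d + 1 := by omega
  have hcQ : (pol x 1).coeff (d - 1) = x (1, ⟨d - 1, hd1⟩) := by
    exact hPQ.2.2.1 1 ⟨d - 1, hd1⟩
  have h3 : (fun z : ℂ => loc (s := 0) (fun _ _ => 0) none ()
      ((hF x)^[1] (ch (s := 0) (fun _ _ => 0) none () z))) =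
      fun z => (∑ j : Fin (d + 1), x (1, j) * z ^ (d - (j : ℕ))) /
        (∑ j : Fin (d + 1), x (0, j) * z ^ (d - (j : ℕ))) := by
    funext z
    rw [Function.iterate_one]
    show (hF x (1, z)).2 / (hF x (1, z)).1 = _
    simp [hF]
  have hval : ∀ i : Fin 2, ∑ j : Fin (d + 1), x (i, j) * (0 : ℂ) ^ (d - (j : ℕ)) =
      x (i, Fin.last d) := by
    intro i
    rw [Finset.sum_eq_single (Fin.last d)]
    · simp
    · intro j _ hj
      have : (j : ℕ) ≠ d := fun h => hj (Fin.ext h)
      have h2 := j.2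
      rw [zero_pow (by omega), mul_zero]
    · intro h; exact absurd (Finset.mem_univ _) h
  have hder : ∀ i : Fin 2, HasDerivAt (fun z : ℂ => ∑ j : Fin (d + 1), x (i, j) * z ^ (d - (j : ℕ)))
      (x (i, ⟨d - 1, hd1⟩)) 0 := by
    intro i
    have h5 : HasDerivAt (fun z : ℂ => ∑ j : Fin (d + 1), x (i, j) * z ^ (d - (j : ℕ)))
        (∑ j : Fin (d + 1), x (i, j) * (((d - (j : ℕ) : ℕ) : ℂ) * (0 : ℂ) ^ (d - (j : ℕ) - 1))) 0 := by
      refine HasDerivAt.fun_sum fun j _ => ?_
      exact (hasDerivAt_pow _ _).const_mul _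
    refine h5.congr_deriv ?_
    rw [Finset.sum_eq_single (⟨d - 1, hd1⟩ : Fin (d + 1))]
    · have e1 : d - (d - 1) = 1 := by omega
      simp [e1]
    · intro j _ hj
      have hj' : (j : ℕ) ≠ d - 1 := fun h => hj (Fin.ext h)
      have h2 := j.2
      by_cases hjd : (j : ℕ) = d
      · simp [hjd]
      · rw [zero_pow (by omega), mul_zero, mul_zero]
    · intro h; exact absurd (Finset.mem_univ _) h
  have h4 : HasDerivAt (fun z : ℂ => (∑ j : Fin (d + 1), x (1, j) * z ^ (d - (j : ℕ))) /
      (∑ j : Fin (d + 1), x (0, j) * z ^ (d - (j : ℕ)))) _ 0 :=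
    (hder 1).div (hder 0) (by rw [hval]; exact h0)
  rw [h3, h4.deriv, hval, hval, hfix] at h2
  rw [hcP, hcQ]
  convert h2 using 2
  field_simp
  ring

end main

theorem task : StNAF := by
  intro d x hd hx
  by_contra hcon
  push Not at hcon
  have hPQ := (PQ SP d (by omega)).1 x hx
  set P := pol x 0 with hP
  set Q := pol x 1 with hQ
  obtain ⟨hcop, hmax, hcoef, hbig, heval⟩ := hPQ
  set G : ℂ[X] := P - X * Q with hG
  have hGe : ∀ z, G.eval z = P.eval z - z * Q.eval z := by
    intro z; rw [hG]; simp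
  have hdG : ∀ z, (derivative G).eval z =
      (derivative P).eval z - z * (derivative Q).eval z - Q.eval z := by
    intro z; rw [hG]; simp; ring
  have hQne : ∀ z, G.eval z = 0 → Q.eval z ≠ 0 := by
    intro z hz h0
    rw [hGe, h0, mul_zero, sub_zero] at hz
    obtain ⟨a, b, hab⟩ := hcop
    have := congrArg (Polynomial.eval z) hab
    rw [eval_add, eval_mul, eval_mul, hz, h0] at this
    simp at this
  have hmult : ∀ z, G.eval z = 0 → ‖1 + (derivative G).eval z / Q.eval z‖ < 1 := by
    intro z hz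
    have hq := hQne z hz
    have hfix : P.eval z = z * Q.eval z := by
      rw [hGe] at hz; exact sub_eq_zero.1 hz
    have hfx : sp x (z : OnePoint ℂ) = z := by
      rw [heval z hq, hfix, mul_div_cancel_right₀ _ hq]
    obtain ⟨p, hp⟩ := hcon _ hfx
    have h1 := mult_finite hd hx hfix hq hp
    rw [← hP, ← hQ] at h1
    convert h1 using 2
    rw [hdG]
    field_simp
    ring
  have hsep : ∀ z, G.eval z = 0 → (derivative G).eval z ≠ 0 := by
    intro z hz h0
    have := hmult z hz
    rw [h0, zero_div, add_zero, norm_one] at this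
    exact lt_irrefl _ this
  have hterm : ∀ z, G.eval z = 0 → (Q.eval z / (derivative G).eval z).re < -(1 / 2) := by
    intro z hz
    have h1 := half_lt_re (hmult z hz)
    have h2 : 1 / (1 - (1 + (derivative G).eval z / Q.eval z)) =
        -(Q.eval z / (derivative G).eval z) := by
      have e1 := hsep z hz
      have e2 := hQne z hz
      have e3 : 1 - (1 + (derivative G).eval z / Q.eval z) = -((derivative G).eval z / Q.eval z) := by
        ring
      rw [e3, one_div, inv_neg, inv_div]
    rw [h2, Complex.neg_re] at h1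
    linarith
  have hcP : P.coeff d = x (0, Fin.last d) := by
    have := hcoef 0 (Fin.last d)
    simpa using this
  have hcQ : Q.coeff d = x (1, Fin.last d) := by
    have := hcoef 1 (Fin.last d)
    simpa using this
  have hPdeg : P.natDegree ≤ d := hmax ▸ le_max_left _ _
  have hQdeg : Q.natDegree ≤ d := hmax ▸ le_max_right _ _
  have hcG : ∀ n : ℕ, G.coeff (n + 1) = P.coeff (n + 1) - Q.coeff n := by
    intro n
    rw [hG, coeff_sub, coeff_X_mul]
  have hGdeg : G.natDegree ≤ d + 1 := by
    refine (natDegree_sub_le _ _).trans (max_le (by omega) ?_)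
    refine (natDegree_mul_le).trans ?_
    rw [natDegree_X]
    omega
  -- a bound for the sum
  have hsum : ∀ s : Finset ℂ, (∀ z ∈ s, G.eval z = 0) →
      (∑ z ∈ s, Q.eval z / (derivative G).eval z).re ≤ -(s.card / 2 : ℝ) := by
    intro s hs
    rw [Complex.re_sum]
    calc ∑ z ∈ s, (Q.eval z / (derivative G).eval z).re ≤ ∑ z ∈ s, (-(1 / 2) : ℝ) :=
          Finset.sum_le_sum fun z hz => (hterm z (hs z hz)).le
      _ = -(s.card / 2 : ℝ) := by rw [Finset.sum_const, nsmul_eq_mul]; ring
  have hd2 : (2 : ℝ) ≤ d := by exact_mod_cast hd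
  by_cases hinf : x (1, Fin.last d) = 0
  · -- infinity is fixed
    have hfx : sp x ∞ = ∞ := by
      show pr (hF x (1, 0)) = ∞
      have : (hF x (1, 0)).2 = 0 := by
        show ∑ j : Fin (d + 1), x (1, j) * ((1 : ℂ) ^ (j : ℕ) * 0 ^ (d - (j : ℕ))) = 0
        refine Finset.sum_eq_zero fun j _ => ?_
        by_cases hj : (j : ℕ) = d
        · have : j = Fin.last d := Fin.ext hj
          rw [this, hinf, zero_mul]
        · have h2 := j.2
          rw [zero_pow (by omega)]
          ring
      rw [pr, if_pos this]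
    obtain ⟨p, hp⟩ := hcon _ hfx
    obtain ⟨h0, hm⟩ := mult_infty hd hx hinf hp
    rw [← hP, ← hQ] at hm
    set μ : ℂ := Q.coeff (d - 1) / P.coeff d with hμ
    have hPd : P.coeff d ≠ 0 := by rw [hcP]; exact h0
    have hGd : G.coeff d = P.coeff d * (1 - μ) := by
      have := hcG (d - 1)
      rw [Nat.sub_add_cancel (by omega)] at this
      rw [this, hμ]
      field_simp
    have h1μ : 1 - μ ≠ 0 := by
      intro h
      have : μ = 1 := (sub_eq_zero.1 h).symm
      rw [this, norm_one] at hm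
      exact lt_irrefl _ hm
    have hGd0 : G.coeff d ≠ 0 := by rw [hGd]; exact mul_ne_zero hPd h1μ
    have hGd1 : G.coeff (d + 1) = 0 := by
      rw [hcG, hcQ, hinf, sub_zero]
      exact coeff_eq_zero_of_natDegree_lt (by omega)
    have hGn : G.natDegree = d := by
      refine le_antisymm ?_ (le_natDegree_of_ne_zero hGd0)
      by_contra hlt
      push Not at hlt
      have he : G.natDegree = d + 1 := by omega
      have hl : G.leadingCoeff = 0 := by rw [leadingCoeff, he, hGd1]
      rw [leadingCoeff_eq_zero] at hl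
      rw [hl] at hGd0
      simp at hGd0
    have hG0 : G ≠ 0 := by intro h; rw [h] at hGd0; simp at hGd0
    have hQlt : Q.degree < G.natDegree := by
      rw [hGn]
      refine degree_lt_iff_coeff_zero _ _ |>.2 fun m hm => ?_
      rcases hm.eq_or_lt with rfl | hm
      · rw [hcQ, hinf]
      · exact coeff_eq_zero_of_natDegree_lt (by omega)
    obtain ⟨s, hsc, hs, hform⟩ := sum_formula G Q hG0 hQlt hsep
    have h5 := hsum s hs
    rw [hform, hsc, leadingCoeff, hGn, hGd] at h5
    have h6 : Q.coeff (d - 1) / (P.coeff d * (1 - μ)) = 1 / (1 - μ) - 1 := by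
      have : Q.coeff (d - 1) = μ * P.coeff d := by rw [hμ]; field_simp
      rw [this]
      field_simp
      ring
    rw [h6, Complex.sub_re, Complex.one_re] at h5
    have h7 := half_lt_re hm
    linarith
  · have hGd1 : G.coeff (d + 1) = -Q.coeff d := by
      rw [hcG, coeff_eq_zero_of_natDegree_lt (by omega), zero_sub]
    have hQd : Q.coeff d ≠ 0 := by rw [hcQ]; exact hinf
    have hGd0 : G.coeff (d + 1) ≠ 0 := by rw [hGd1]; exact neg_ne_zero.2 hQd
    have hGn : G.natDegree = d + 1 := le_antisymm hGdeg (le_natDegree_of_ne_zero hGd0)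
    have hG0 : G ≠ 0 := by intro h; rw [h] at hGd0; simp at hGd0
    have hQlt : Q.degree < G.natDegree := by
      rw [hGn]
      refine lt_of_le_of_lt degree_le_natDegree ?_
      exact_mod_cast Nat.lt_succ_of_le hQdeg
    obtain ⟨s, hsc, hs, hform⟩ := sum_formula G Q hG0 hQlt hsep
    have h5 := hsum s hs
    rw [hform, hsc, leadingCoeff, hGn, hGd1, Nat.add_sub_cancel, div_neg, div_self hQd] at h5
    simp only [Complex.neg_re, Complex.one_re] at h5
    push_cast at h5
    linarith

end Pool.Agent.W571.RENAF
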