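import Pool.Agent.W842.BV.Stms2

/-!
# BV-POL: the triple system of the polarity graph
-/

set_option autoImplicit false

namespace Pool.Agent.W571.BVPOL

open Finset Pool.Agent.W842.BV

section

variable {F : Type} [Field F] [DecidableEq F]

/-- second coordinate -/
noncomputable def hh (s : Finset F) (x : F) : F :=
  x * (∑ a ∈ s, a) - x ^ 2 - ((∑ a ∈ s, a) ^ 2 - ∑ a ∈ s, a ^ 2) / 4

/-- the triple of the three-element set `s` -/
noncomputable def ee (s : Finset F) : Finset (F × F) := s.image fun x => (x, hh s x)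

lemma mem_ee {s : Finset F} {p : F × F} : p ∈ ee s ↔ p.1 ∈ s ∧ p.2 = hh s p.1 := by
  unfold ee
  rw [mem_image]
  constructor
  · rintro ⟨x, hx, rfl⟩
    exact ⟨hx, rfl⟩
  · rintro ⟨h1, h2⟩
    exact ⟨p.1, h1, Prod.ext rfl h2.symm⟩

lemma card_ee (s : Finset F) : (ee s).card = s.card :=
  card_image_of_injective _ fun _ _ h => (Prod.mk.inj h).1

lemma ee_inj {s t : Finset F} (h : ee s = ee t) : s = t := by
  ext x
  constructor
  · intro hx
    have h1 : (x, hh s x) ∈ ee t := by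
      rw [← h]
      exact mem_ee.2 ⟨hx, rfl⟩
    exact (mem_ee.1 h1).1
  · intro hx
    have h1 : (x, hh t x) ∈ ee s := by
      rw [h]
      exact mem_ee.2 ⟨hx, rfl⟩
    exact (mem_ee.1 h1).1

lemma third {s : Finset F} (hs : s.card = 3) {x y : F} (hx : x ∈ s) (hy : y ∈ s) (hxy : x ≠ y) :
    ∃ z, z ≠ x ∧ z ≠ y ∧ s = {x, y, z} := by
  have h1 : ((s.erase x).erase y).card = 1 := by
    rw [card_erase_of_mem (mem_erase.2 ⟨hxy.symm, hy⟩), card_erase_of_mem hx, hs]
  obtain ⟨z, hz⟩ := card_eq_one.1 h1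
  have hz' : z ∈ (s.erase x).erase y := by rw [hz]; exact mem_singleton_self z
  rw [mem_erase, mem_erase] at hz'
  refine ⟨z, hz'.2.1, hz'.1, ?_⟩
  ext w
  simp only [mem_insert, mem_singleton]
  constructor
  · intro hw
    by_cases h2 : w = x
    · exact Or.inl h2
    by_cases h3 : w = y
    · exact Or.inr (Or.inl h3)
    have : w ∈ (s.erase x).erase y := mem_erase.2 ⟨h3, mem_erase.2 ⟨h2, hw⟩⟩
    rw [hz, mem_singleton] at this
    exact Or.inr (Or.inr this)
  · rintro (rfl | rfl | rfl)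
    · exact hx
    · exact hy
    · exact hz'.2.2

lemma sum3 {x y z : F} (hxy : x ≠ y) (hxz : z ≠ x) (hyz : z ≠ y) (f : F → F) :
    ∑ a ∈ ({x, y, z} : Finset F), f a = f x + f y + f z := by
  rw [sum_insert, sum_insert, sum_singleton]
  · ring
  · rw [mem_singleton]; exact hyz.symm
  · rw [mem_insert, mem_singleton]
    rintro (h | h)
    · exact hxy h
    · exact hxz h.symm

variable (h2 : (2 : F) ≠ 0)

include h2

lemma hh3 {x y z : F} (hxy : x ≠ y) (hxz : z ≠ x) (hyz : z ≠ y) :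
    hh ({x, y, z} : Finset F) x = (x * y + x * z - y * z) / 2 := by
  unfold hh
  rw [sum3 hxy hxz hyz, sum3 hxy hxz hyz]
  have h4 : (4 : F) ≠ 0 := by
    have : (4 : F) = 2 * 2 := by norm_num
    rw [this]
    exact mul_ne_zero h2 h2
  field_simp
  ring

lemma hh3' {x y z : F} (hxy : x ≠ y) (hxz : z ≠ x) (hyz : z ≠ y) :
    hh ({x, y, z} : Finset F) y = (x * y + y * z - x * z) / 2 := by
  have e : ({x, y, z} : Finset F) = {y, x, z} := by
    ext w; simp only [mem_insert, mem_singleton]; tauto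
  rw [e, hh3 h2 hxy.symm hyz hxz]
  ring

lemma key {s : Finset F} (hs : s.card = 3) {p p' : F × F} (hp : p ∈ ee s) (hp' : p' ∈ ee s)
    (hne : p ≠ p') : p.1 ≠ p'.1 ∧ p.2 + p'.2 = p.1 * p'.1 := by
  rw [mem_ee] at hp hp'
  have h1 : p.1 ≠ p'.1 := by
    intro h
    apply hne
    refine Prod.ext h ?_
    rw [hp.2, hp'.2, h]
  refine ⟨h1, ?_⟩
  obtain ⟨z, hz1, hz2, hz3⟩ := third hs hp.1 hp'.1 h1
  rw [hp.2, hp'.2, hz3, hh3 h2 h1 hz1 hz2, hh3' h2 h1 hz1 hz2]
  field_simp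
  ring

lemma two {s t : Finset F} (hs : s.card = 3) (ht : t.card = 3) {p p' : F × F} (hp : p ∈ ee s)
    (hp' : p' ∈ ee s) (hq : p ∈ ee t) (hq' : p' ∈ ee t) (hne : p ≠ p') : s = t := by
  have h1 := (key h2 hs hp hp' hne).1
  rw [mem_ee] at hp hp' hq hq'
  obtain ⟨z, hz1, hz2, hz3⟩ := third hs hp.1 hp'.1 h1
  obtain ⟨w, hw1, hw2, hw3⟩ := third ht hq.1 hq'.1 h1
  have e1 := hp.2.symm.trans hq.2
  rw [hz3, hw3, hh3 h2 h1 hz1 hz2, hh3 h2 h1 hw1 hw2] at e1
  field_simp at e1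
  have e2 : (p.1 - p'.1) * (z - w) = 0 := by linear_combination e1
  rcases mul_eq_zero.1 e2 with e3 | e3
  · exact absurd (sub_eq_zero.1 e3) h1
  · rw [hz3, hw3, sub_eq_zero.1 e3]

end

theorem t_POL : Pool.Agent.W842.BV.S_POL := by
  intro q _ hq2
  have h2 : (2 : ZMod q) ≠ 0 := by
    intro h
    have h1 : ((2 : ℕ) : ZMod q) = 0 := by exact_mod_cast h
    rw [ZMod.natCast_eq_zero_iff] at h1
    have hq := (Fact.out : q.Prime)
    exact hq2 ((Nat.prime_dvd_prime_iff_eq hq Nat.prime_two).1 h1)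
  set H : Finset (Finset (ZMod q × ZMod q)) := (powersetCard 3 (univ : Finset (ZMod q))).image ee
    with hH
  have hmem : ∀ e ∈ H, ∃ s : Finset (ZMod q), s.card = 3 ∧ e = ee s := by
    intro e he
    obtain ⟨s, hs, rfl⟩ := mem_image.1 he
    exact ⟨s, (mem_powersetCard.1 hs).2, rfl⟩
  have hmem' : ∀ s : Finset (ZMod q), s.card = 3 → ee s ∈ H := fun s hs =>
    mem_image.2 ⟨s, mem_powersetCard.2 ⟨subset_univ _, hs⟩, rfl⟩
  have hlin : ∀ e ∈ H, ∀ f ∈ H, ∀ p p', p ∈ e → p' ∈ e → p ∈ f → p' ∈ f → p ≠ p' → e = f := by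
    intro e he f hf p p' h1 h1' h3 h3' hne
    obtain ⟨s, hs, rfl⟩ := hmem e he
    obtain ⟨t, ht, rfl⟩ := hmem f hf
    rw [two h2 hs ht h1 h1' h3 h3' hne]
  refine ⟨H, ?_, ?_, ?_, ?_, ?_⟩
  · rw [hH, card_image_of_injective _ fun _ _ h => ee_inj h, card_powersetCard, card_univ,
      ZMod.card]
  · intro e he
    obtain ⟨s, hs, rfl⟩ := hmem e he
    rw [card_ee, hs]
  · intro e he f hf hef
    rw [card_le_one]
    intro p hp p' hp'
    rw [mem_inter] at hp hp'
    by_contra hne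
    exact hef (hlin e he f hf p p' hp.1 hp'.1 hp.2 hp'.2 hne)
  · intro e he f hf g hg hef hfg heg x y z hxe hxf hyf hyg hze hzg hxy hyz hxz
    obtain ⟨s, hs, rfl⟩ := hmem e he
    obtain ⟨t, ht, rfl⟩ := hmem f hf
    obtain ⟨u, hu, rfl⟩ := hmem g hg
    obtain ⟨a1, a2⟩ := key h2 ht hxf hyf hxy
    obtain ⟨b1, b2⟩ := key h2 hu hyg hzg hyz
    obtain ⟨c1, c2⟩ := key h2 hs hxe hze hxz
    set w : Finset (ZMod q) := {x.1, y.1, z.1} with hw
    have hwc : w.card = 3 := card_eq_three.2 ⟨_, _, _, a1, c1, b1, rfl⟩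
    have hx : x ∈ ee w := by
      rw [mem_ee]
      refine ⟨by simp [hw], ?_⟩
      rw [hw, hh3 h2 a1 c1.symm b1.symm, eq_div_iff h2]
      linear_combination a2 + c2 - b2
    have hy : y ∈ ee w := by
      rw [mem_ee]
      refine ⟨by simp [hw], ?_⟩
      rw [hw, hh3' h2 a1 c1.symm b1.symm, eq_div_iff h2]
      linear_combination a2 + b2 - c2
    have hz : z ∈ ee w := by
      rw [mem_ee]
      refine ⟨by simp [hw], ?_⟩
      have e1 : w = {z.1, x.1, y.1} := by
        rw [hw]; ext v; simp only [mem_insert, mem_singleton]; tauto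
      rw [e1, hh3 h2 c1.symm b1 a1.symm, eq_div_iff h2]
      linear_combination b2 + c2 - a2
    have e1 := two h2 ht hwc hxf hyf hx hy hxy
    have e2 := two h2 hu hwc hyg hzg hy hz hyz
    exact hfg (by rw [e1, e2])
  · intro x y hxy
    rw [card_le_one]
    have hn : ∀ v p : ZMod q × ZMod q, p ∈ nbr H v → v.2 + p.2 = v.1 * p.1 := by
      intro v p hp
      unfold nbr at hp
      rw [mem_filter] at hp
      obtain ⟨-, hpv, e, he, hve, hpe⟩ := hp
      obtain ⟨s, hs, rfl⟩ := hmem e he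
      exact (key h2 hs hve hpe (Ne.symm hpv)).2
    intro v hv v' hv'
    rw [mem_filter] at hv hv'
    have a1 := hn v x hv.2.1
    have a2 := hn v y hv.2.2
    have b1 := hn v' x hv'.2.1
    have b2 := hn v' y hv'.2.2
    have e1 : (x.1 - y.1) * (v.1 - v'.1) = 0 := by
      linear_combination a2 - a1 + b1 - b2
    have e2 : x.1 ≠ y.1 := by
      intro h
      apply hxy
      refine Prod.ext h ?_
      have : v.1 * x.1 = v.1 * y.1 := by rw [h]
      linear_combination a1 - a2 + this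
    rcases mul_eq_zero.1 e1 with e3 | e3
    · exact absurd (sub_eq_zero.1 e3) e2
    · have e4 := sub_eq_zero.1 e3
      refine Prod.ext e4 ?_
      rw [e4] at a1
      linear_combination a1 - b1

end Pool.Agent.W571.BVPOL
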