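import Pool.Agent.W375.MT.Jet
import Pool.Agent.W749.NM.Stm

/-!
# NM-JETN and NM-SHIFTN (helper571): copies of `Pool.Agent.W375.MT.Jet` and `.Shift`
-/

set_option autoImplicit false

namespace Pool.Agent.W571.NMJet

open MvPolynomial
open Pool.Agent.W428.MOT Pool.Agent.W375.MT
open Pool.Agent.W749.NM (JetN stratN S_JetN S_ShiftN)

variable {K : Type} [Field K] {n : ℕ}

theorem constr_ord {ι : Type} (γ : Fin n → Pt K ι → PowerSeries (AlgebraicClosure K))
    (hγ : ∀ i, IsPA (γ i)) (f : MvPolynomial (Fin n) K) (N : ℕ) :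
    Constr {z : Pt K ι | (∀ j < N, PowerSeries.coeff j (aeval (fun i => γ i z) f) = 0) ∧
      PowerSeries.coeff N (aeval (fun i => γ i z) f) ≠ 0} :=
  Constr.and (Constr.allLt _ fun j _ => Constr.eqz (IsPA.aeval γ hγ f j))
    (Constr.eqz (IsPA.aeval γ hγ f N)).not

theorem constr_stratN (f : MvPolynomial (Fin n) K) (x : Fin n → K) (N : ℕ) (u : Fin n → ℕ) :
    Constr (stratN f x N u) := by
  unfold stratN
  refine Constr.and (Constr.all fun i => Constr.eq (IsPF.coord _) (IsPF.const _))
    (Constr.and (Constr.all fun i => Constr.and (Constr.allLt _ fun j _ => ?_)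
      (Constr.imp' fun _ => ?_)) (constr_ord (fun i z => arc z i) (fun i => isPA_arc i) f N))
  · exact Constr.eqz (isPA_arc i j)
  · exact (Constr.eqz (isPA_arc i (u i))).not

/-! ### (SHIFTN) -/

theorem shift : S_ShiftN := by
  intro K _ R _ M n f x J hJ N hN u hA hu
  have hu0 : ∀ i, x i ≠ 0 → u i = 0 := by
    intro i hi
    by_contra h
    exact hi ((hJ i).1 ((hA i).1 h))
  have hu1 : ∀ i, x i = 0 → u i ≠ 0 := fun i hi => (hA i).2 ((hJ i).2 hi)
  refine M.iso _ _ (constr_stratN f x N u) ((constr_Y0 x N u).inter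
    (constr_ord (fun i z => PowerSeries.X ^ u i * arc z i)
      (fun i => IsPA_X_pow_mul (isPA_arc i) _) f N))
    (sh u) (sh' u) (regularOn_poly (fun p => isPF_sh u p) _)
    (regularOn_poly (fun p => isPF_sh' u p) _) ?_ ?_ ?_ ?_
  · rintro z ⟨h1, h2, h3⟩
    refine ⟨⟨?_, ?_, ?_⟩, ?_⟩
    · intro i j hj
      simp only [sh]
      rw [dif_neg (by have := hu i; omega)]
    · intro i hi
      have := (h2 i).2 hi
      rw [coeff_arc _ _ _ (by omega)] at this
      simp only [sh]
      rw [dif_pos (by simp only [Fin.val_zero]; omega)]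
      simpa using this
    · intro i hi
      have h0 := hu0 i hi
      simp only [sh]
      rw [dif_pos (by simp only [Fin.val_zero]; omega), ← h1 i]
      congr 2
      apply Fin.ext
      simp [h0]
    · have h4 : (fun i => PowerSeries.X ^ u i * arc (sh u z) i) = arc z := by
        funext i
        exact (arc_sh u z i (h2 i).1).symm
      simp only [Set.mem_ofPred_eq]
      rw [h4]
      exact h3
  · rintro y ⟨⟨h1, h2, h3⟩, h4⟩
    have h5 : ∀ i, arc (sh' u y) i = PowerSeries.X ^ u i * arc y i := fun i =>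
      arc_sh' u y i (h1 i) (by have := hu i; omega)
    refine ⟨?_, ?_, ?_⟩
    · intro i
      simp only [sh']
      by_cases hi : x i = 0
      · rw [if_neg (by have := hu1 i hi; simp only [Fin.val_zero]; omega), hi, map_zero]
      · have h0 := hu0 i hi
        rw [if_pos (by simp only [Fin.val_zero]; omega), ← h3 i hi]
        congr 2
        apply Fin.ext
        simp
    · intro i
      rw [h5 i]
      constructor
      · intro j hj
        rw [PowerSeries.coeff_X_pow_mul', if_neg (by omega)]
      · intro hi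
        rw [PowerSeries.coeff_X_pow_mul', if_pos le_rfl, Nat.sub_self,
          coeff_arc _ _ _ (by omega)]
        exact h2 i hi
    · have h6 : arc (sh' u y) = fun i => PowerSeries.X ^ u i * arc y i := funext h5
      rw [h6]
      exact h4
  · rintro z ⟨h1, h2, h3⟩
    funext p
    obtain ⟨i, j⟩ := p
    simp only [sh', sh]
    split_ifs with h6 h7
    · congr 2
      apply Fin.ext
      simp only
      omega
    · exfalso
      have := j.2
      omega
    · have := (h2 i).1 (j : ℕ) (by omega)
      rw [coeff_arc _ _ _ j.2] at this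
      exact this.symm
  · rintro y ⟨⟨h1, h2, h3⟩, h4⟩
    funext p
    obtain ⟨i, j⟩ := p
    simp only [sh', sh]
    split_ifs with h6 h7
    · congr 2
      apply Fin.ext
      simp only
      omega
    · omega
    · rw [h1 i j (by have := hu i; omega)]

/-! ### (JETN) -/

/-- the jets of level `2 N + 1` -/
def JetN' {n : ℕ} (f : MvPolynomial (Fin n) K) (x : Fin n → K) (N : ℕ) :
    Set (Pt K (Fin n × Fin (2 * N + 1 + 1))) :=
  {z | (∀ i, z (i, 0) = algebraMap K (AlgebraicClosure K) (x i)) ∧
    (∀ j < N, PowerSeries.coeff j (aeval (arc z) f) = 0) ∧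
    PowerSeries.coeff N (aeval (arc z) f) ≠ 0}

theorem constr_JetN (f : MvPolynomial (Fin n) K) (x : Fin n → K) (N : ℕ) :
    Constr (JetN f x N) :=
  Constr.and (Constr.all fun i => Constr.eq (IsPF.coord _) (IsPF.const _))
    (constr_ord (fun i z => arc z i) (fun i => isPA_arc i) f N)

theorem constr_JetN' (f : MvPolynomial (Fin n) K) (x : Fin n → K) (N : ℕ) :
    Constr (JetN' f x N) :=
  Constr.and (Constr.all fun i => Constr.eq (IsPF.coord _) (IsPF.const _))
    (constr_ord (fun i z => arc z i) (fun i => isPA_arc i) f N)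

theorem jet'_free (f : MvPolynomial (Fin n) K) (x : Fin n → K) (N : ℕ)
    (z w : Pt K (Fin n × Fin (2 * N + 1 + 1))) (h : ∀ p, p ∉ F1 n N → w p = z p)
    (hz : z ∈ JetN' f x N) : w ∈ JetN' f x N := by
  obtain ⟨h1, h2, h3⟩ := hz
  have key : ∀ j ≤ N, PowerSeries.coeff j (aeval (arc w) f) =
      PowerSeries.coeff j (aeval (arc z) f) := by
    intro j hj
    refine coeff_aeval_congr f N (arc w) (arc z) ?_ j hj
    intro i k hk
    rw [coeff_arc _ _ _ (by omega), coeff_arc _ _ _ (by omega)]
    exact h _ (by simp only [F1, Finset.mem_filter, Finset.mem_univ, true_and]; omega)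
  refine ⟨fun i => ?_, fun j hj => ?_, ?_⟩
  · rw [h (i, 0) (by simp [F1]), h1]
  · rw [key j hj.le]
    exact h2 j hj
  · rw [key N le_rfl]
    exact h3

theorem jet_eq {R : Type} [CommRing R] (M : Meas K R) (f : MvPolynomial (Fin n) K)
    (x : Fin n → K) (N : ℕ) :
    M.χ _ (JetN' f x N ∩ {z | ∀ p ∈ F1 n N, z p = 0}) = M.χ _ (JetN f x N) := by
  refine M.iso _ _ ((constr_JetN' f x N).inter (Constr.ballFinset _ fun p _ =>
    Constr.eqz (IsPF.coord _))) (constr_JetN f x N) (rs N) (ex N)
    (regularOn_poly (fun p => IsPF.coord _) _) (regularOn_poly (fun p => ?_) _) ?_ ?_ ?_ ?_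
  · unfold ex
    by_cases h : (p.2 : ℕ) < N + 1
    · simp only [dif_pos h]
      exact IsPF.coord _
    · simp only [dif_neg h]
      exact IsPF.zero
  · rintro z ⟨⟨h1, h2, h4⟩, h3⟩
    have key : ∀ j ≤ N, PowerSeries.coeff j (aeval (arc (rs N z)) f) =
        PowerSeries.coeff j (aeval (arc z) f) := by
      intro j hj
      refine coeff_aeval_congr f N (arc (rs N z)) (arc z) ?_ j hj
      intro i k hk
      rw [coeff_arc _ _ _ (by omega), coeff_arc _ _ _ (by omega)]
      rfl
    refine ⟨fun i => ?_, fun j hj => ?_, ?_⟩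
    · rw [← h1 i]
      rfl
    · rw [key j hj.le]
      exact h2 j hj
    · rw [key N le_rfl]
      exact h4
  · rintro z ⟨h1, h2, h4⟩
    have key : ∀ j ≤ N, PowerSeries.coeff j (aeval (arc (ex N z)) f) =
        PowerSeries.coeff j (aeval (arc z) f) := by
      intro j hj
      refine coeff_aeval_congr f N (arc (ex N z)) (arc z) ?_ j hj
      intro i k hk
      rw [coeff_arc _ _ _ (by omega), coeff_arc _ _ _ (by omega)]
      simp only [ex]
      rw [dif_pos (by omega)]
    refine ⟨⟨fun i => ?_, fun j hj => ?_, ?_⟩, ?_⟩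
    · rw [← h1 i]
      rfl
    · rw [key j hj.le]
      exact h2 j hj
    · rw [key N le_rfl]
      exact h4
    · intro p hp
      simp only [F1, Finset.mem_filter, Finset.mem_univ, true_and] at hp
      simp only [ex]
      rw [dif_neg (by omega)]
  · rintro z ⟨-, h3⟩
    funext p
    simp only [ex, rs]
    split_ifs with h
    · rfl
    · exact (h3 p (by simp only [F1, Finset.mem_filter, Finset.mem_univ, true_and]; omega)).symm
  · rintro z -
    funext p
    simp only [ex, rs]
    rw [dif_pos p.2.2]

theorem jet'_union (f : MvPolynomial (Fin n) K) (x : Fin n → K) (J : Finset (Fin n))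
    (hJ : ∀ i, i ∈ J ↔ x i = 0) (N : ℕ) (hN : 1 ≤ N) :
    JetN' f x N = ⋃ u ∈ (Fintype.piFinset fun _ : Fin n => Finset.range (N + 2)).filter (Adm J),
      stratN f x N u := by
  classical
  ext z
  simp only [Set.mem_iUnion, Finset.mem_filter, Fintype.mem_piFinset, Finset.mem_range,
    exists_prop]
  constructor
  · intro hz
    obtain ⟨h1, h2⟩ := hz
    have hex : ∀ i, ∃ j, j = N + 1 ∨ PowerSeries.coeff j (arc z i) ≠ 0 := fun i =>
      ⟨N + 1, Or.inl rfl⟩
    have hle : ∀ i, Nat.find (hex i) ≤ N + 1 := fun i => Nat.find_min' (hex i) (Or.inl rfl)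
    refine ⟨fun i => Nat.find (hex i), ⟨fun i => Nat.lt_succ_of_le (hle i), fun i => ?_⟩,
      h1, ?_, h2⟩
    · rw [hJ]
      simp only
      rw [ne_eq, Nat.find_eq_zero]
      have h3 : PowerSeries.coeff 0 (arc z i) = algebraMap K (AlgebraicClosure K) (x i) := by
        rw [coeff_arc _ _ _ (by omega)]
        exact h1 i
      rw [h3]
      constructor
      · intro h
        by_contra h4
        exact h (Or.inr (by simpa using h4))
      · intro h
        rw [h, map_zero]
        rintro (h4 | h4)
        · omega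
        · exact h4 rfl
    · intro i
      constructor
      · intro j hj
        have := Nat.find_min (hex i) hj
        push Not at this
        exact this.2
      · intro hi
        rcases Nat.find_spec (hex i) with h | h
        · have hi' : Nat.find (hex i) ≤ N := hi
          omega
        · exact h
  · rintro ⟨u, -, h1, -, h3⟩
    exact ⟨h1, h3⟩

/-- (JETN), from (FREE). -/
theorem jet (h1 : S_Free) : S_JetN := by
  classical
  intro K _ R _ M n f x J hJ N hN
  have e1 := h1 M (JetN' f x N) ∅ (F1 n N) (fun _ => 0) (Finset.disjoint_empty_left _)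
    (constr_JetN' f x N) (fun z w h hz => jet'_free f x N z w (fun p hp => h p (by simp) hp) hz)
  simp only [Finset.notMem_empty, false_implies, implies_true, Set.ofPred_true, Set.inter_univ,
    Finset.empty_union, map_zero, Finset.card_empty, pow_zero, mul_one] at e1
  rw [card_F1, jet_eq] at e1
  rw [← e1, jet'_union f x J hJ N hN]
  refine chi_biUnion M _ _ (fun u _ => constr_stratN f x N u) ?_
  intro u hu v hv huv
  rw [Set.disjoint_left]
  rintro z ⟨-, h2, -⟩ ⟨-, h3, -⟩
  apply huv
  simp only [Finset.mem_filter, Fintype.mem_piFinset, Finset.mem_range] at hu hv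
  funext i
  rcases lt_trichotomy (u i) (v i) with h | h | h
  · exact absurd ((h3 i).1 _ h) ((h2 i).2 (by have := hv.1 i; omega))
  · exact h
  · exact absurd ((h2 i).1 _ h) ((h3 i).2 (by have := hu.1 i; omega))

end Pool.Agent.W571.NMJet
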