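import Pool.Agent.W792.WA.Stm

/-! # WA-HOLF: analytic families of solutions of the effective medium equation -/

set_option autoImplicit false

namespace Pool.Agent.W571.WAHolf

open MeasureTheory Filter Pool.Agent.W792.LL Pool.Agent.W792.WA
open scoped Topology

theorem main : S_SC1 → S_SC2 → S_PSI → S_UUC → S_HOLC → S_HOLU → S_FIX → S_HOLF := by
  intro _ hSC2 hPSI hUUC hHOLC hHOLU _ ν _ d ρ _ C q r w hvr hρ hw hq hwq hr hrq
  have hq0 : 0 ≤ r * q := mul_nonneg hr.le hq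
  have hq1 : 0 < 1 - (r * q) ^ 2 := by nlinarith
  -- the families of symbols
  have hWc : ∀ t : ℂ, Continuous (Function.uncurry fun (k : UnitAddTorus (Fin d)) (a : ℝ) =>
      t * w k a) := fun t => continuous_const.mul hw
  have hWb : ∀ t ∈ Metric.ball (0 : ℂ) r, ∀ k, ∀ a ∈ Set.Icc (-C) C, ‖t * w k a‖ ≤ r * q := by
    intro t ht k a ha
    rw [norm_mul]
    exact mul_le_mul (by simpa using (mem_ball_zero_iff.1 ht).le) (hwq k a ha) (norm_nonneg _) hr.le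
  have hWm : ∀ (t : ℂ) k, Measurable fun a : ℝ => t * w k a := by
    intro t k
    exact ((hWc t).comp (Continuous.prodMk_right k)).measurable
  have hae : ∀ t ∈ Metric.ball (0 : ℂ) r, ∀ k, ∀ᵐ a ∂ρ, ‖t * w k a‖ ≤ r * q := by
    intro t ht k
    filter_upwards [mem_ae_iff.2 hρ] with a ha
    exact hWb t ht k a ha
  have hUU : ∀ t ∈ Metric.ball (0 : ℂ) r, ∀ s : C(UnitAddTorus (Fin d), ℂ), ‖s‖ ≤ 1 →
      (∀ k, UU ρ (fun k a => t * w k a) s k = Us ρ (fun a => t * w k a) (s k)) ∧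
        ‖UU ρ (fun k a => t * w k a) s‖ ≤ r * q := by
    intro t ht s hs
    exact hUUC d ρ C (r * q) (fun k a => t * w k a) s hρ (hWc t) hq0 hrq.le (hWb t ht) hs
      (lt_of_le_of_lt (mul_le_of_le_one_right hq0 hs) hrq)
  have hpsi1 : ∀ m : C(UnitAddTorus (Fin d), ℂ), ‖m‖ ≤ r * q → ‖psi ν m‖ ≤ 1 := by
    intro m hm
    exact (ContinuousMap.norm_le _ zero_le_one).2 fun k =>
      ((hPSI ν d (r * q) m m hq0 hrq hm hm).1 k).2.2.1
  -- the map and its Lipschitz bound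
  have hUL : ∀ t ∈ Metric.ball (0 : ℂ) r, ∀ s₁ s₂ : C(UnitAddTorus (Fin d), ℂ), ‖s₁‖ ≤ 1 →
      ‖s₂‖ ≤ 1 → ‖UU ρ (fun k a => t * w k a) s₁ - UU ρ (fun k a => t * w k a) s₂‖ ≤
        ‖s₁ - s₂‖ / (1 - (r * q) ^ 2) := by
    intro t ht s₁ s₂ h1 h2
    refine (ContinuousMap.norm_le _ (div_nonneg (norm_nonneg _) hq1.le)).2 fun k => ?_
    rw [ContinuousMap.sub_apply, (hUU t ht s₁ h1).1 k, (hUU t ht s₂ h2).1 k, le_div_iff₀ hq1]
    have hk1 : ‖s₁ k‖ ≤ 1 := (s₁.norm_coe_le_norm k).trans h1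
    have hk2 : ‖s₂ k‖ ≤ 1 := (s₂.norm_coe_le_norm k).trans h2
    have h3 := (hSC2 ρ (fun a => t * w k a) (r * q) (s₁ k) (s₂ k) (hWm t k) hq0 hrq
      (hae t ht k) hk1 hk2).2
    have u1 : ‖Us ρ (fun a => t * w k a) (s₁ k)‖ ≤ r * q := by
      rw [← (hUU t ht s₁ h1).1 k]
      exact (ContinuousMap.norm_coe_le_norm _ k).trans (hUU t ht s₁ h1).2
    have u2 : ‖Us ρ (fun a => t * w k a) (s₂ k)‖ ≤ r * q := by
      rw [← (hUU t ht s₂ h2).1 k]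
      exact (ContinuousMap.norm_coe_le_norm _ k).trans (hUU t ht s₂ h2).2
    have v1 : 0 ≤ 1 - ‖Us ρ (fun a => t * w k a) (s₁ k)‖ ^ 2 ∧
        1 - ‖Us ρ (fun a => t * w k a) (s₁ k)‖ ^ 2 ≤ 1 := by
      constructor <;> nlinarith [norm_nonneg (Us ρ (fun a => t * w k a) (s₁ k))]
    have v2 : 0 ≤ 1 - ‖Us ρ (fun a => t * w k a) (s₂ k)‖ ^ 2 ∧
        1 - ‖Us ρ (fun a => t * w k a) (s₂ k)‖ ^ 2 ≤ 1 := by
      constructor <;> nlinarith [norm_nonneg (Us ρ (fun a => t * w k a) (s₂ k))]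
    have h4 : (r * q) ^ 4 ≤ 1 := pow_le_one₀ hq0 hrq.le
    have h5 : (1 - ‖Us ρ (fun a => t * w k a) (s₁ k)‖ ^ 2) *
        (1 - ‖Us ρ (fun a => t * w k a) (s₂ k)‖ ^ 2) ≤ 1 := mul_le_one₀ v1.2 v2.1 v2.2
    have h6 : (r * q) ^ 4 * ‖s₁ k - s₂ k‖ ^ 2 * ((1 - ‖Us ρ (fun a => t * w k a) (s₁ k)‖ ^ 2) *
        (1 - ‖Us ρ (fun a => t * w k a) (s₂ k)‖ ^ 2)) ≤ ‖s₁ k - s₂ k‖ ^ 2 := by
      calc _ ≤ 1 * ‖s₁ k - s₂ k‖ ^ 2 * 1 := by
            apply mul_le_mul _ h5 (mul_nonneg v1.1 v2.1) (by positivity)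
            exact mul_le_mul_of_nonneg_right h4 (by positivity)
        _ = _ := by ring
    have h7 : (‖Us ρ (fun a => t * w k a) (s₁ k) - Us ρ (fun a => t * w k a) (s₂ k)‖ *
        (1 - (r * q) ^ 2)) ^ 2 ≤ ‖s₁ k - s₂ k‖ ^ 2 := by
      rw [mul_pow]; exact h3.trans h6
    have h8 := (le_abs_self _).trans (abs_le_of_sq_le_sq h7 (norm_nonneg _))
    have h9 : ‖s₁ k - s₂ k‖ ≤ ‖s₁ - s₂‖ := (s₁ - s₂).norm_coe_le_norm k
    exact h8.trans h9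
  have hFL : ∀ t ∈ Metric.ball (0 : ℂ) r, ∀ s₁ s₂ : C(UnitAddTorus (Fin d), ℂ), ‖s₁‖ ≤ 1 →
      ‖s₂‖ ≤ 1 → ‖psi ν (UU ρ (fun k a => t * w k a) s₁) -
        psi ν (UU ρ (fun k a => t * w k a) s₂)‖ ≤
        ‖s₁ - s₂‖ / (1 - (r * q) ^ 2) / (1 - (r * q) ^ 2) := by
    intro t ht s₁ s₂ h1 h2
    refine ((hPSI ν d (r * q) _ _ hq0 hrq (hUU t ht s₁ h1).2 (hUU t ht s₂ h2).2).2.2).trans ?_
    exact div_le_div_of_nonneg_right (hUL t ht s₁ s₂ h1 h2) hq1.le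
  -- one step
  have hstep : ∀ t ∈ Metric.ball (0 : ℂ) r, ∀ (s₁ s₂ : C(UnitAddTorus (Fin d), ℂ)) (T : ℝ),
      ‖s₁‖ ≤ 1 → ‖s₂‖ ≤ 1 → 0 ≤ T → (∀ k, 0 < 1 - ‖s₁ k‖ ^ 2) → (∀ k, 0 < 1 - ‖s₂ k‖ ^ 2) →
      (∀ k, ‖s₁ k - s₂ k‖ ^ 2 ≤ T * ((1 - ‖s₁ k‖ ^ 2) * (1 - ‖s₂ k‖ ^ 2))) →
      ∀ k, ‖psi ν (UU ρ (fun k a => t * w k a) s₁) k - psi ν (UU ρ (fun k a => t * w k a) s₂) k‖ ^ 2
        ≤ ((r * q) ^ 4 * T) * ((1 - ‖psi ν (UU ρ (fun k a => t * w k a) s₁) k‖ ^ 2) *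
          (1 - ‖psi ν (UU ρ (fun k a => t * w k a) s₂) k‖ ^ 2)) := by
    intro t ht s₁ s₂ T h1 h2 hT0 hp1 hp2 hT
    refine (hPSI ν d (r * q) (UU ρ (fun k a => t * w k a) s₁) (UU ρ (fun k a => t * w k a) s₂)
      hq0 hrq (hUU t ht s₁ h1).2 (hUU t ht s₂ h2).2).2.1 ((r * q) ^ 4 * T) (by positivity)
      (fun k => ?_)
    rw [(hUU t ht s₁ h1).1 k, (hUU t ht s₂ h2).1 k]
    have hk1 : ‖s₁ k‖ ≤ 1 := (s₁.norm_coe_le_norm k).trans h1
    have hk2 : ‖s₂ k‖ ≤ 1 := (s₂.norm_coe_le_norm k).trans h2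
    have h3 := (hSC2 ρ (fun a => t * w k a) (r * q) (s₁ k) (s₂ k) (hWm t k)
      hq0 hrq (hae t ht k) hk1 hk2).1
    have u1 : 0 ≤ 1 - ‖Us ρ (fun a => t * w k a) (s₁ k)‖ ^ 2 := by
      have : ‖Us ρ (fun a => t * w k a) (s₁ k)‖ ≤ r * q := by
        rw [← (hUU t ht s₁ h1).1 k]
        exact (ContinuousMap.norm_coe_le_norm _ k).trans (hUU t ht s₁ h1).2
      nlinarith [norm_nonneg (Us ρ (fun a => t * w k a) (s₁ k))]
    have u2 : 0 ≤ 1 - ‖Us ρ (fun a => t * w k a) (s₂ k)‖ ^ 2 := by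
      have : ‖Us ρ (fun a => t * w k a) (s₂ k)‖ ≤ r * q := by
        rw [← (hUU t ht s₂ h2).1 k]
        exact (ContinuousMap.norm_coe_le_norm _ k).trans (hUU t ht s₂ h2).2
      nlinarith [norm_nonneg (Us ρ (fun a => t * w k a) (s₂ k))]
    have pp : 0 < (1 - ‖s₁ k‖ ^ 2) * (1 - ‖s₂ k‖ ^ 2) := mul_pos (hp1 k) (hp2 k)
    refine le_of_mul_le_mul_right (h3.trans ?_) pp
    have h5 : (r * q) ^ 4 * ‖s₁ k - s₂ k‖ ^ 2 ≤
        (r * q) ^ 4 * (T * ((1 - ‖s₁ k‖ ^ 2) * (1 - ‖s₂ k‖ ^ 2))) :=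
      mul_le_mul_of_nonneg_left (hT k) (by positivity)
    refine (mul_le_mul_of_nonneg_right h5 (mul_nonneg u1 u2)).trans (le_of_eq ?_)
    ring
  -- the iterates
  obtain ⟨S, hS0, hSs⟩ : ∃ S : ℕ → ℂ → C(UnitAddTorus (Fin d), ℂ), (∀ t, S 0 t = 0) ∧
      ∀ n t, S (n + 1) t = psi ν (UU ρ (fun k a => t * w k a) (S n t)) :=
    ⟨fun n t => (fun s => psi ν (UU ρ (fun k a => t * w k a) s))^[n] 0, fun t => rfl,
      fun n t => Function.iterate_succ_apply' _ _ _⟩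
  have hS1 : ∀ n, ∀ t ∈ Metric.ball (0 : ℂ) r, ‖S n t‖ ≤ 1 := by
    intro n
    induction n with
    | zero => intro t _; rw [hS0]; simp
    | succ n ih =>
      intro t ht
      rw [hSs]
      exact hpsi1 _ (hUU t ht _ (ih t ht)).2
  have hSd : ∀ n, DifferentiableOn ℂ (S n) (Metric.ball 0 r) := by
    intro n
    induction n with
    | zero =>
      have : S 0 = fun _ => 0 := funext hS0
      rw [this]
      exact differentiableOn_const _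
    | succ n ih =>
      have h1 := (hHOLU d ρ C q r w (S n) hρ hw hwq hq hr hrq ih (hS1 n)).1
      have h2 := (hHOLC ν d (Metric.ball 0 r) (fun t => UU ρ (fun k a => t * w k a) (S n t))
        (r * q) Metric.isOpen_ball hrq h1 (fun t ht => (hUU t ht _ (hS1 n t ht)).2)).2.1
      have : S (n + 1) = fun t => psi ν (UU ρ (fun k a => t * w k a) (S n t)) :=
        funext (hSs n)
      rw [this]
      exact h2
  -- quantitative contraction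
  obtain ⟨κ, hκ⟩ : ∃ κ : ℝ, κ = (1 - (r * q) ^ 2) * vr ν / 4 := ⟨_, rfl⟩
  have hκ0 : 0 < κ := by rw [hκ]; positivity
  have hSk : ∀ n, ∀ t ∈ Metric.ball (0 : ℂ) r, ∀ k, κ ≤ 1 - ‖S (n + 1) t k‖ ^ 2 := by
    intro n t ht k
    rw [hSs, hκ]
    have := ((hPSI ν d (r * q) _ _ hq0 hrq (hUU t ht _ (hS1 n t ht)).2
      (hUU t ht _ (hS1 n t ht)).2).1 k).2.2.2.2.2
    linarith
  have hT : ∀ n, ∀ t ∈ Metric.ball (0 : ℂ) r, ∀ k, ‖S (n + 2) t k - S (n + 1) t k‖ ^ 2 ≤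
      (4 / κ ^ 2 * ((r * q) ^ 4) ^ n) * ((1 - ‖S (n + 2) t k‖ ^ 2) * (1 - ‖S (n + 1) t k‖ ^ 2)) := by
    intro n
    induction n with
    | zero =>
      intro t ht k
      rw [pow_zero, mul_one]
      have h1 := hSk 1 t ht k
      have h2 := hSk 0 t ht k
      have h3 : κ * κ ≤ (1 - ‖S (0 + 2) t k‖ ^ 2) * (1 - ‖S (0 + 1) t k‖ ^ 2) :=
        mul_le_mul h1 h2 hκ0.le (hκ0.le.trans h1)
      have h4 : ‖S (0 + 2) t k - S (0 + 1) t k‖ ≤ 2 := by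
        refine (norm_sub_le _ _).trans ?_
        have a1 := ((S (0 + 2) t).norm_coe_le_norm k).trans (hS1 _ t ht)
        have a2 := ((S (0 + 1) t).norm_coe_le_norm k).trans (hS1 _ t ht)
        linarith
      have h5 : ‖S (0 + 2) t k - S (0 + 1) t k‖ ^ 2 ≤ 4 := by
        have := pow_le_pow_left₀ (norm_nonneg _) h4 2
        norm_num at this ⊢
        exact this
      calc _ ≤ (4 : ℝ) := h5
        _ = 4 / κ ^ 2 * (κ * κ) := by field_simp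
        _ ≤ _ := mul_le_mul_of_nonneg_left h3 (by positivity)
    | succ n ih =>
      intro t ht k
      have h := hstep t ht (S (n + 2) t) (S (n + 1) t) (4 / κ ^ 2 * ((r * q) ^ 4) ^ n)
        (hS1 _ t ht) (hS1 _ t ht) (by positivity) (fun k => hκ0.trans_le (hSk (n + 1) t ht k))
        (fun k => hκ0.trans_le (hSk n t ht k)) (ih t ht) k
      rw [← hSs (n + 2) t, ← hSs (n + 1) t] at h
      refine h.trans (le_of_eq ?_)
      rw [pow_succ ((r * q) ^ 4) n]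
      have e : (r * q) ^ 4 * (4 / κ ^ 2 * ((r * q) ^ 4) ^ n) =
        4 / κ ^ 2 * (((r * q) ^ 4) ^ n * (r * q) ^ 4) := by ring
      rw [e]
  have hD : ∀ n, ∀ t ∈ Metric.ball (0 : ℂ) r, dist (S (n + 1) t) (S (n + 2) t) ≤
      2 / κ * ((r * q) ^ 2) ^ n := by
    intro n t ht
    rw [dist_comm, dist_eq_norm]
    refine (ContinuousMap.norm_le _ (by positivity)).2 fun k => ?_
    rw [ContinuousMap.sub_apply]
    have h1 := hT n t ht k
    have p1 : 0 ≤ 1 - ‖S (n + 2) t k‖ ^ 2 := hκ0.le.trans (hSk (n + 1) t ht k)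
    have p2 : 0 ≤ 1 - ‖S (n + 1) t k‖ ^ 2 := hκ0.le.trans (hSk n t ht k)
    have h2 : (1 - ‖S (n + 2) t k‖ ^ 2) * (1 - ‖S (n + 1) t k‖ ^ 2) ≤ 1 := by
      refine mul_le_one₀ ?_ p2 ?_
      · have := sq_nonneg ‖S (n + 2) t k‖; linarith
      · have := sq_nonneg ‖S (n + 1) t k‖; linarith
    have h3 : ‖S (n + 2) t k - S (n + 1) t k‖ ^ 2 ≤ (2 / κ * ((r * q) ^ 2) ^ n) ^ 2 := by
      refine h1.trans ((mul_le_mul_of_nonneg_left h2 (by positivity)).trans (le_of_eq ?_))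
      have e1 : ((r * q) ^ 4) ^ n = (((r * q) ^ 2) ^ n) ^ 2 := by
        rw [← pow_mul, ← pow_mul, ← pow_mul]; ring_nf
      rw [mul_one, e1]
      ring
    exact (le_abs_self _).trans (abs_le_of_sq_le_sq h3 (by positivity))
  have hr2 : (r * q) ^ 2 < 1 := by linarith
  -- the limit
  have hlim : ∀ t : ℂ, ∃ a : C(UnitAddTorus (Fin d), ℂ), t ∈ Metric.ball (0 : ℂ) r →
      Tendsto (fun n => S (n + 1) t) atTop (𝓝 a) := by
    intro t
    by_cases ht : t ∈ Metric.ball (0 : ℂ) r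
    · obtain ⟨a, ha⟩ := cauchySeq_tendsto_of_complete
        (cauchySeq_of_le_geometric ((r * q) ^ 2) (2 / κ) hr2 (fun n => hD n t ht))
      exact ⟨a, fun _ => ha⟩
    · exact ⟨0, fun h => absurd h ht⟩
  choose L hL using hlim
  have hbd : ∀ n, ∀ t ∈ Metric.ball (0 : ℂ) r, dist (S (n + 1) t) (L t) ≤
      2 / κ * ((r * q) ^ 2) ^ n / (1 - (r * q) ^ 2) := fun n t ht =>
    dist_le_of_le_geometric_of_tendsto ((r * q) ^ 2) (2 / κ) hr2 (fun n => hD n t ht) (hL t ht) n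
  have hunif : TendstoUniformlyOn (fun n t => S (n + 1) t) L atTop (Metric.ball 0 r) := by
    rw [Metric.tendstoUniformlyOn_iff]
    intro ε hε
    have h1 : Tendsto (fun n : ℕ => 2 / κ * ((r * q) ^ 2) ^ n / (1 - (r * q) ^ 2)) atTop (𝓝 0) := by
      have h2 := tendsto_pow_atTop_nhds_zero_of_lt_one (sq_nonneg (r * q)) hr2
      have h3 := (h2.const_mul (2 / κ)).div_const (1 - (r * q) ^ 2)
      simpa using h3
    filter_upwards [h1.eventually_lt_const hε] with n hn t ht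
    rw [dist_comm]
    exact (hbd n t ht).trans_lt hn
  have hLd : DifferentiableOn ℂ L (Metric.ball 0 r) :=
    hunif.tendstoLocallyUniformlyOn.differentiableOn
      (Eventually.of_forall fun n => hSd (n + 1)) Metric.isOpen_ball
  have hL1 : ∀ t ∈ Metric.ball (0 : ℂ) r, ‖L t‖ ≤ 1 := fun t ht =>
    le_of_tendsto (hL t ht).norm (Eventually.of_forall fun n => hS1 (n + 1) t ht)
  refine ⟨L, hLd, (hHOLU d ρ C q r w L hρ hw hwq hq hr hrq hLd hL1).1, fun t ht =>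
    ⟨hL1 t ht, ?_⟩⟩
  -- the fixed point
  have h1 : Tendsto (fun n => S (n + 1 + 1) t) atTop (𝓝 (L t)) :=
    (hL t ht).comp (tendsto_add_atTop_nat 1)
  have h2 : Tendsto (fun n => S (n + 1 + 1) t) atTop
      (𝓝 (psi ν (UU ρ (fun k a => t * w k a) (L t)))) := by
    rw [tendsto_iff_norm_sub_tendsto_zero]
    have h3 : Tendsto (fun n => ‖S (n + 1) t - L t‖ / (1 - (r * q) ^ 2) / (1 - (r * q) ^ 2)) atTop
        (𝓝 0) := by
      have h4 := tendsto_iff_norm_sub_tendsto_zero.1 (hL t ht)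
      have h5 := (h4.div_const (1 - (r * q) ^ 2)).div_const (1 - (r * q) ^ 2)
      simpa using h5
    refine squeeze_zero (fun _ => norm_nonneg _) (fun n => ?_) h3
    rw [hSs (n + 1) t]
    exact hFL t ht _ _ (hS1 (n + 1) t ht) (hL1 t ht)
  exact tendsto_nhds_unique h2 h1

end Pool.Agent.W571.WAHolf
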