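import Pool.Agent.W792.WA.Stm

/-! # WA-SHF: shift of the origin (adapted from Pool.Agent.W613.LLShift) -/

set_option autoImplicit false

namespace Pool.Agent.W571.WAShf

open MeasureTheory Pool.Agent.W792.LL Pool.Agent.W792.WA

theorem mp (ν : Measure ℝ) [IsProbabilityMeasure ν] (d : ℕ) (x : Fin d → ℤ) :
    MeasurePreserving (fun (v : (Fin d → ℤ) → ℝ) (y : Fin d → ℤ) => v (y + x))
      (Pn ν (Fin d → ℤ)) (Pn ν (Fin d → ℤ)) := by
  classical
  have hm : Measurable (fun (v : (Fin d → ℤ) → ℝ) (y : Fin d → ℤ) => v (y + x)) :=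
    measurable_pi_lambda _ fun y => measurable_pi_apply _
  refine ⟨hm, ?_⟩
  unfold Pn
  apply Measure.eq_infinitePi
  intro s t ht
  rw [Measure.map_apply hm (MeasurableSet.pi s.countable_toSet fun i _ => ht i)]
  have e : (fun (v : (Fin d → ℤ) → ℝ) (y : Fin d → ℤ) => v (y + x)) ⁻¹' (Set.pi s t) =
      Set.pi (s.map (Equiv.addRight x).toEmbedding : Finset (Fin d → ℤ)) (fun y => t (y - x)) := by
    ext v
    simp only [Set.mem_preimage, Set.mem_pi, Finset.mem_coe, Finset.mem_map,
      Equiv.coe_toEmbedding, Equiv.coe_addRight]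
    constructor
    · rintro h _ ⟨y, hy, rfl⟩
      rw [add_sub_cancel_right]
      exact h y hy
    · intro h y hy
      have := h (y + x) ⟨y, hy, rfl⟩
      rwa [add_sub_cancel_right] at this
  rw [e, Measure.infinitePi_pi]
  · rw [Finset.prod_map]
    refine Finset.prod_congr rfl (fun y _ => ?_)
    have h0 : y + x - x = y := add_sub_cancel_right y x
    change ν (t (y + x - x)) = _
    rw [h0]
  · intro y hy
    rw [Finset.mem_map] at hy
    obtain ⟨y', hy', rfl⟩ := hy
    exact ht _

theorem main : S_SHF := by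
  intro ν _ d Q hQ
  rw [ae_all_iff]
  intro x
  exact (mp ν d x).quasiMeasurePreserving.ae hQ

end Pool.Agent.W571.WAShf
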